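import Pool.Agent.N932.AG.Words
import Pool.Agent.N932.FL.PolyArc2

/-!
# The polygons with a given rest as words
-/

set_option autoImplicit false

namespace Pool.Agent.N932.AG

open Finset Pool.Agent.H976R2 Pool.Agent.H976R2.Lip Pool.Agent.H924P Pool.Agent.H739K
open Pool.Agent.R54.AS Pool.Agent.N949.AL
open Pool.Agent.N932.FL.Poly (IsPoly rer arcS loops)
open scoped Classical

noncomputable section

theorem area_shift (m : ℕ) (f : ZMod m → ℤ × ℤ) (s : ZMod m) (v : ℤ × ℤ) :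
    area m (fun i => f (i - s) + v) = area m f := by
  have h1 : ∀ c : ℤ × ℤ, Encl m (fun i => f (i - s) + v) c ↔ Encl m f (c - v) := by
    intro c
    unfold Encl
    have h2 : Nat.card {k : ZMod m // Above m (fun i => f (i - s) + v) c.1 c.2 k} =
        Nat.card {k : ZMod m // Above m f (c - v).1 (c - v).2 k} := by
      refine Nat.card_congr ((Equiv.subRight s).subtypeEquiv fun k => ?_)
      have h3 : (Equiv.subRight s) k = k - s := rfl
      have h4 : k + 1 - s = k - s + 1 := by ring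
      unfold Above
      rw [h3]
      simp only [h4, Prod.fst_add, Prod.snd_add, Prod.fst_sub, Prod.snd_sub]
      generalize f (k - s) = p
      generalize f (k - s + 1) = q
      constructor
      · rintro ⟨h5, h6⟩
        exact ⟨by omega, by omega⟩
      · rintro ⟨h5, h6⟩
        exact ⟨by omega, by omega⟩
    rw [h2]
  unfold area
  refine Nat.card_congr ((Equiv.subRight v).subtypeEquiv fun c => ?_)
  exact h1 c

/-- the words of the polygons which agree with `f` outside the arc -/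
def XX (n : ℕ) (s : ZMod (2 * n)) (m : ℕ) (f : ZMod (2 * n) → ℤ × ℤ) : Finset (List Dir) :=
  (KP (2 * n - 1)).filter (fun w => ∀ k : ℕ, m ≤ k → k < 2 * n →
    PP w k = f (s + (k : ZMod (2 * n))) - f s)

/-- the polygon of a word -/
def TW (n : ℕ) (s : ZMod (2 * n)) (f : ZMod (2 * n) → ℤ × ℤ) (w : List Dir) :
    ZMod (2 * n) → ℤ × ℤ := fun i => lp (2 * n) w (i - s) + f s

theorem lp_val {M : ℕ} (w : List Dir) (k : ZMod M) : lp M w k = PP w k.val := rfl

theorem lp_surj : ∀ (M : ℕ), 1 ≤ M → ∀ g : ZMod M → ℤ × ℤ, IsLoop M g →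
    ∃ w ∈ KP (M - 1), lp M w = g := by
  intro M hM g hg
  obtain ⟨n, rfl⟩ : ∃ n, M = n + 1 := ⟨M - 1, by omega⟩
  have h1 : (g : Fin (n + 1) → ℤ × ℤ) ∈ pth n '' (KP n : Set (List Dir)) := by
    rw [CONV.image_eq]
    exact hg
  obtain ⟨w, hw, h2⟩ := h1
  exact ⟨w, hw, h2⟩

theorem lp_injOn : ∀ (M : ℕ), 1 ≤ M → Set.InjOn (lp M) (KP (M - 1) : Set (List Dir)) := by
  intro M hM
  obtain ⟨n, rfl⟩ : ∃ n, M = n + 1 := ⟨M - 1, by omega⟩
  intro w hw w' hw' h
  exact CONV.injOn n hw hw' h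

theorem ex_val {n : ℕ} (hn : 1 ≤ n) (s i : ZMod (2 * n)) :
    i = s + (((i - s).val : ℕ) : ZMod (2 * n)) ∧ (i - s).val < 2 * n := by
  have : NeZero (2 * n) := ⟨by omega⟩
  rw [ZMod.natCast_zmod_val]
  exact ⟨by ring, (i - s).val_lt⟩

theorem TW_mem {n : ℕ} (hn : 2 ≤ n) {s : ZMod (2 * n)} {m : ℕ} {f : ZMod (2 * n) → ℤ × ℤ}
    {w : List Dir} (hw : w ∈ XX n s m f) : TW n s f w ∈ rer n (arcS n s m) f := by
  unfold XX at hw
  rw [mem_filter] at hw
  obtain ⟨hw, hk⟩ := hw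
  obtain ⟨h0, h1, h2⟩ := (CONV_proof n hn).2.2 w hw
  refine ⟨⟨?_, ?_⟩, ?_⟩
  · intro i j h
    unfold TW at h
    have h3 := h1 (add_right_cancel h)
    exact sub_left_injective h3
  · intro i
    have h3 := h2 (i - s)
    have h4 : i + 1 - s = i - s + 1 := by ring
    unfold TW
    rw [h4]
    simp only [Prod.fst_add, Prod.snd_add]
    rw [add_sub_add_right_eq_sub, add_sub_add_right_eq_sub]
    exact h3
  · intro i hi
    obtain ⟨h3, h4⟩ := ex_val (by omega : 1 ≤ n) s i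
    obtain ⟨k, hkk⟩ : ∃ k, k = (i - s).val := ⟨_, rfl⟩
    unfold TW
    rw [lp_val, ← hkk]
    rw [← hkk] at h3 h4
    by_cases hk0 : k = 0
    · have h5 : i = s := by rw [h3, hk0]; simp
      rw [hk0, h5]
      unfold PP
      simp
    · by_cases hkm : m ≤ k
      · rw [hk k hkm h4, h3]
        simp
      · exact absurd ⟨k, by omega, by omega, h3⟩ hi

theorem TW_surj {n : ℕ} (hn : 2 ≤ n) {s : ZMod (2 * n)} {m : ℕ} (hm : m < 2 * n)
    (hm1 : 1 ≤ m) {f : ZMod (2 * n) → ℤ × ℤ} {g : ZMod (2 * n) → ℤ × ℤ}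
    (hg : g ∈ rer n (arcS n s m) f) : ∃ w ∈ XX n s m f, TW n s f w = g := by
  obtain ⟨⟨h1, h2⟩, h3⟩ := hg
  have : NeZero (2 * n) := ⟨by omega⟩
  have hs : g s = f s := h3 s (Pool.Agent.N932.FL.Poly.arcS_not hm)
  obtain ⟨w, hw, hwl⟩ := lp_surj (2 * n) (by omega) (fun i => g (i + s) - g s) (by
    refine ⟨by simp, ?_, ?_⟩
    · intro i j h
      have h4 := h1 (sub_left_injective h)
      exact add_right_cancel h4
    · intro i
      have h4 := h2 (i + s)
      have h5 : i + 1 + s = i + s + 1 := by ring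
      show |(g (i + 1 + s) - g s).1 - (g (i + s) - g s).1| +
        |(g (i + 1 + s) - g s).2 - (g (i + s) - g s).2| = 1
      rw [h5]
      simp only [Prod.fst_sub, Prod.snd_sub]
      rw [sub_sub_sub_cancel_right, sub_sub_sub_cancel_right]
      exact h4)
  refine ⟨w, ?_, ?_⟩
  · unfold XX
    rw [mem_filter]
    refine ⟨hw, fun k hk1 hk2 => ?_⟩
    have h4 : lp (2 * n) w ((k : ℕ) : ZMod (2 * n)) = PP w k := by
      rw [lp_val, ZMod.val_natCast_of_lt hk2]
    rw [← h4, hwl]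
    simp only
    rw [add_comm, hs]
    congr 1
    refine h3 _ ?_
    rintro ⟨j, hj1, hj2, hj3⟩
    have h5 := add_left_cancel hj3
    have h6 := Pool.Agent.N932.FL.Poly.cast_inj (n := n) hk2 (by omega) h5
    omega
  · funext i
    unfold TW
    rw [hwl]
    simp only
    rw [sub_add_cancel, ← hs, sub_add_cancel]

theorem TW_inj {n : ℕ} (hn : 2 ≤ n) (s : ZMod (2 * n)) (m : ℕ) (f : ZMod (2 * n) → ℤ × ℤ) :
    Set.InjOn (TW n s f) (XX n s m f : Set (List Dir)) := by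
  intro w hw w' hw' h
  unfold XX at hw hw'
  rw [mem_coe, mem_filter] at hw hw'
  refine lp_injOn (2 * n) (by omega) hw.1 hw'.1 ?_
  funext i
  have h1 := congrFun h (i + s)
  unfold TW at h1
  rw [add_sub_cancel_right] at h1
  exact add_right_cancel h1

theorem TW_image {n : ℕ} (hn : 2 ≤ n) {s : ZMod (2 * n)} {m : ℕ} (hm : m < 2 * n)
    (hm1 : 1 ≤ m) (f : ZMod (2 * n) → ℤ × ℤ) :
    rer n (arcS n s m) f = TW n s f '' (XX n s m f : Set (List Dir)) := by
  ext g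
  constructor
  · intro hg
    obtain ⟨w, hw, h⟩ := TW_surj hn hm hm1 hg
    exact ⟨w, hw, h⟩
  · rintro ⟨w, hw, rfl⟩
    exact TW_mem hn hw

theorem area_TW {n : ℕ} (hn : 2 ≤ n) {s : ZMod (2 * n)} {m : ℕ} {f : ZMod (2 * n) → ℤ × ℤ}
    {w : List Dir} (hw : w ∈ XX n s m f) : area (2 * n) (TW n s f w) = ar w := by
  unfold XX at hw
  rw [mem_filter] at hw
  rw [F4x.ar_eq hn hw.1]
  exact area_shift (2 * n) (lp (2 * n) w) s (f s)

theorem sum_XX {n : ℕ} (hn : 2 ≤ n) {s : ZMod (2 * n)} {m : ℕ} (hm : m < 2 * n)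
    (hm1 : 1 ≤ m) (f : ZMod (2 * n) → ℤ × ℤ) (ψ : ℕ → ℝ) :
    ∑ᶠ g ∈ rer n (arcS n s m) f, ψ (area (2 * n) g) = ∑ w ∈ XX n s m f, ψ (ar w) := by
  rw [TW_image hn hm hm1 f, finsum_mem_image (TW_inj hn s m f), finsum_mem_coe_finset]
  exact sum_congr rfl fun w hw => by rw [area_TW hn hw]

theorem card_XX {n : ℕ} (hn : 2 ≤ n) {s : ZMod (2 * n)} {m : ℕ} (hm : m < 2 * n)
    (hm1 : 1 ≤ m) (f : ZMod (2 * n) → ℤ × ℤ) :
    (rer n (arcS n s m) f).ncard = (XX n s m f).card := by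
  rw [TW_image hn hm hm1 f, (TW_inj hn s m f).ncard_image, Set.ncard_coe_finset]

/-- the vertices outside the arc -/
def VV (n : ℕ) (s : ZMod (2 * n)) (m : ℕ) (f : ZMod (2 * n) → ℤ × ℤ) : Finset P2 :=
  ((range (2 * n)).filter (fun k => k = 0 ∨ m ≤ k)).image
    (fun k : ℕ => f (s + (k : ZMod (2 * n))) - f s)

theorem VV_spec {n : ℕ} (hn : 2 ≤ n) {s : ZMod (2 * n)} {m : ℕ} {f : ZMod (2 * n) → ℤ × ℤ}
    {w : List Dir} (hw : w ∈ XX n s m f) :
    ∀ v ∈ VV n s m f, ∃ k, (k = 0 ∨ m ≤ k) ∧ k ≤ w.length ∧ PP w k = v := by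
  intro v hv
  unfold VV at hv
  rw [mem_image] at hv
  obtain ⟨k, hk, rfl⟩ := hv
  rw [mem_filter, mem_range] at hk
  unfold XX at hw
  rw [mem_filter] at hw
  have hl := (Fin.mem_KP.mp hw.1).1
  refine ⟨k, hk.2, by omega, ?_⟩
  rcases hk.2 with h | h
  · rw [h]
    unfold PP
    simp
  · exact hw.2 k h hk.1

theorem XX_flip {n : ℕ} (hn : 2 ≤ n) {s : ZMod (2 * n)} {m : ℕ} {f : ZMod (2 * n) → ℤ × ℤ}
    {w : List Dir} (hw : w ∈ XX n s m f) {i : ℕ} (hi : i ∈ fc w)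
    (hV : Av (VV n s m f) (lab w i)) : sw w i ∈ XX n s m f := by
  have hw0 := hw
  unfold XX at hw ⊢
  rw [mem_filter] at hw ⊢
  obtain ⟨h1, -, -, -, -, -, -, h8, -⟩ := flip_all (by omega) hw.1 hi
  refine ⟨h1, fun k hk1 hk2 => ?_⟩
  have hne : k ≠ i + 1 := by
    intro h
    have h2 : PP w k ∈ VV n s m f := by
      rw [hw.2 k hk1 hk2]
      unfold VV
      rw [mem_image]
      exact ⟨k, mem_filter.2 ⟨mem_range.2 hk2, Or.inr hk1⟩, rfl⟩
    rw [h] at h2
    unfold Av at hV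
    rcases corner w hi with ⟨c1, -⟩ | ⟨c1, -⟩
    · rw [c1] at h2
      exact hV.2 h2
    · rw [c1] at h2
      exact hV.1 h2
  rw [h8 k hne]
  exact hw.2 k hk1 hk2

theorem dv_inj {d e : Dir} (h : dv d = dv e) : d = e := by
  cases d <;> cases e <;> simp [dv, dx, dy] at h <;> rfl

theorem XX_TT {n : ℕ} (hn : 2 ≤ n) {s : ZMod (2 * n)} {m : ℕ} (hm : m + 4 ≤ 2 * n)
    {f : ZMod (2 * n) → ℤ × ℤ} {w₀ : List Dir} (hw₀ : w₀ ∈ XX n s m f) :
    XX n s m f ⊆ TT m (w₀.drop m) ∧ 3 ≤ (w₀.drop m).length := by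
  unfold XX at hw₀
  rw [mem_filter] at hw₀
  have hl₀ := (Fin.mem_KP.mp hw₀.1).1
  refine ⟨fun w hw => ?_, by rw [List.length_drop]; omega⟩
  unfold XX at hw
  rw [mem_filter] at hw
  obtain ⟨hl, hs, -⟩ := Fin.mem_KP.mp hw.1
  rw [mem_TT, List.length_drop]
  refine ⟨⟨by omega, hs⟩, ?_⟩
  refine List.ext_getElem (by rw [List.length_drop, List.length_drop]; omega) ?_
  intro j h1 h2
  rw [List.length_drop] at h1
  rw [List.getElem_drop, List.getElem_drop]
  have e1 : w[m + j]'(by omega) = lt w (m + j) := by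
    unfold lt
    rw [List.getD_eq_getElem?_getD, List.getElem?_eq_getElem (by omega)]
    rfl
  have e2 : w₀[m + j]'(by omega) = lt w₀ (m + j) := by
    unfold lt
    rw [List.getD_eq_getElem?_getD, List.getElem?_eq_getElem (by omega)]
    rfl
  rw [e1, e2]
  apply dv_inj
  have p1 := PP_succ w (m + j) (by omega)
  have p2 := PP_succ w₀ (m + j) (by omega)
  rw [hw.2 _ (by omega) (by omega), hw.2 _ (by omega) (by omega)] at p1
  rw [hw₀.2 _ (by omega) (by omega), hw₀.2 _ (by omega) (by omega)] at p2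
  rw [p1] at p2
  exact add_left_cancel p2

/-- few fillings have few free corners -/
theorem XX_few {n : ℕ} (hn : 2 ≤ n) {s : ZMod (2 * n)} {m : ℕ} (hm : m + 4 ≤ 2 * n)
    (f : ZMod (2 * n) → ℤ × ℤ) :
    (((XX n s m f).filter (fun w => ((Pw (VV n s m f) w).card : ℝ) < (m : ℝ) / 50)).card : ℝ) ≤
      1000 * 2.4 ^ m := by
  by_cases hne : (XX n s m f).Nonempty
  · obtain ⟨w₀, hw₀⟩ := hne
    obtain ⟨h1, h2⟩ := XX_TT hn hm hw₀
    refine le_trans ?_ (few_TT (w₀.drop m) h2 m)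
    rw [Nat.cast_le]
    refine card_le_card fun w hw => ?_
    rw [mem_filter] at hw ⊢
    refine ⟨h1 hw.1, ?_⟩
    have hs : Saw w := by
      have := hw.1
      unfold XX at this
      rw [mem_filter] at this
      exact (Fin.mem_KP.mp this.1).2.1
    have h3 := fca_Pw (m := m) hs (VV_spec hn hw.1)
    have h4 : ((fca m w).card : ℝ) ≤ (Pw (VV n s m f) w).card := by exact_mod_cast h3
    have h5 := hw.2
    have h6 : (50 * (fca m w).card : ℝ) < m := by linarith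
    exact_mod_cast h6
  · rw [not_nonempty_iff_eq_empty] at hne
    rw [hne, filter_empty, card_empty]
    norm_num

end

end Pool.Agent.N932.AG
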