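import Pool.Agent.N932.AG.Arc
import Pool.Agent.N949.AL.Fin
import Pool.Agent.Results.MP_b1de6e_pr.DiametersGivenRest

/-!
# The law of the area given all the rest of the polygon
-/

set_option autoImplicit false

namespace Pool.Agent.N932.AG

open Finset Pool.Agent.H976R2 Pool.Agent.H976R2.Lip Pool.Agent.H924P Pool.Agent.H739K
open Pool.Agent.R54.AS Pool.Agent.N949.AL
open Pool.Agent.N932.FL.Poly (IsPoly rer arcS arc loops)
open Pool.Agent.N932.FL (sqLat)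
open scoped Classical

noncomputable section

/-- the number of walks -/
theorem c_low : ∃ c : ℝ, 0 < c ∧ ∀ m : ℕ, c * 2.43 ^ m ≤ ((sqLat.walks m).ncard : ℝ) := by
  obtain ⟨c, hc, h⟩ := Low.SW_card_lower
  refine ⟨c, hc, fun m => (h m).trans ?_⟩
  have h1 : (SW m).card = (pth m '' (SW m : Set (List Dir))).ncard := by
    rw [(pth_injOn m).ncard_image, Set.ncard_coe_finset]
  rw [h1]
  refine Nat.cast_le.2 (Set.ncard_le_ncard ?_ (sqLat.finite m))
  rintro ω ⟨w, hw, rfl⟩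
  rw [← Pool.Agent.Results.MP_b1de6e_pr.DiametersGivenRest.walks_eq m]
  exact pth_saw hw

/-- the number of fillings -/
theorem rer_low : ∃ K : ℝ, 0 < K ∧ ∀ n : ℕ, 2 ≤ n → ∀ x : ℝ,
    ((loops n ∩ {f | ¬ ∀ (s : ZMod (2 * n)) (m : ℕ), 2 ≤ m → m < 2 * n →
      ((sqLat.walks m).ncard : ℝ) ≤
        Real.exp (K * Real.log n ^ 2 + x) * ((rer n (arcS n s m) f).ncard : ℝ)}).ncard : ℝ) ≤
      Real.exp (-x) * (loops n).ncard := by
  obtain ⟨K, hK, h⟩ := Pool.Agent.N932.FL.Poly.arc_dens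
  refine ⟨K, hK, fun n hn x => ?_⟩
  have hn1 : 1 ≤ n := by omega
  have : NeZero (2 * n) := ⟨by omega⟩
  refine le_trans ?_ (h n hn x)
  refine Nat.cast_le.2 (Set.ncard_le_ncard ?_
    ((Pool.Agent.N932.FL.Poly.loops_fin hn1).subset Set.inter_subset_left))
  rintro f ⟨hf, hbad⟩
  refine ⟨hf, fun hgood => hbad (fun s m hm1 hm2 => ?_)⟩
  have hfin : (rer n (arcS n s m) f).Finite :=
    (Pool.Agent.N932.FL.Poly.rer_rot hn1 (Pool.Agent.N932.FL.Poly.arcS_not hm2) hf.2).1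
  have h1 := hgood s m hm1 hm2 {arc n s m f}
  have hmem : f ∈ {g ∈ rer n (arcS n s m) f | arc n s m g ∈ ({arc n s m f} : Set _)} :=
    ⟨⟨hf.2, fun i _ => rfl⟩, rfl⟩
  have h2 : (1 : ℝ) ≤ (({g ∈ rer n (arcS n s m) f |
      arc n s m g ∈ ({arc n s m f} : Set _)}).ncard : ℝ) := by
    have : 0 < ({g ∈ rer n (arcS n s m) f |
      arc n s m g ∈ ({arc n s m f} : Set _)}).ncard :=
      (Set.ncard_pos (hfin.subset (fun g hg => hg.1))).2 ⟨f, hmem⟩
    exact_mod_cast this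
  have h3 : (0 : ℝ) < ((rer n (arcS n s m) f).ncard : ℝ) := by
    have : 0 < (rer n (arcS n s m) f).ncard := (Set.ncard_pos hfin).2 ⟨f, hf.2, fun i _ => rfl⟩
    exact_mod_cast this
  have h4 : (0 : ℝ) < ((sqLat.walks m).ncard : ℝ) := by
    obtain ⟨c, hc, hcl⟩ := c_low
    exact lt_of_lt_of_le (by positivity) (hcl m)
  have h5 : ((sqLat.walks m ∩ {arc n s m f}).ncard : ℝ) ≤ 1 := by
    have h6 := Set.ncard_le_ncard (s := sqLat.walks m ∩ {arc n s m f}) (t := {arc n s m f})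
      Set.inter_subset_right (Set.finite_singleton _)
    rw [Set.ncard_singleton] at h6
    exact_mod_cast h6
  have h6 : (1 : ℝ) / ((rer n (arcS n s m) f).ncard : ℝ) ≤
      Real.exp (K * Real.log n ^ 2 + x) * (1 / (sqLat.walks m).ncard) := by
    refine (div_le_div_of_nonneg_right h2 h3.le).trans (h1.trans ?_)
    exact mul_le_mul_of_nonneg_left (div_le_div_of_nonneg_right h5 h4.le) (Real.exp_pos _).le
  rw [mul_one_div, div_le_div_iff₀ h3 h4, one_mul] at h6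
  exact h6

/-- the conditional mean of `ψ (area)` -/
def mg (n : ℕ) (s : ZMod (2 * n)) (m : ℕ) (f : ZMod (2 * n) → ℤ × ℤ) (ψ : ℕ → ℝ) : ℝ :=
  (∑ w ∈ XX n s m f, ψ (ar w)) / ((XX n s m f).card : ℝ)

theorem core : ∃ (κ : ℕ) (C₀ c K : ℝ), 1 ≤ κ ∧ 0 < C₀ ∧ 0 < c ∧ 0 < K ∧ ∀ n : ℕ, 2 ≤ n →
    ∀ x : ℝ, 0 ≤ x →
    ((loops n ∩ {f | ¬ ∀ (s : ZMod (2 * n)) (m : ℕ), m + 4 ≤ 2 * n →
      K * (Real.log n ^ 2 + x) ≤ m → 2 ≤ m ∧ 0 < (XX n s m f).card ∧ ∀ (ψ β : ℕ → ℝ) (b B : ℝ),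
    (∀ m u : ℕ, |∑ j ∈ range (m + 1), (m.choose j : ℝ) * ψ (u + j)| ≤ β m * 2 ^ m) →
    (∀ m, 0 ≤ β m ∧ β m ≤ B) → 0 ≤ b → (∀ m' : ℕ, (m : ℝ) ≤ 50 * κ * m' → β m' ≤ b) →
    |mg n s m f ψ| ≤ b + B * (C₀ * Real.exp (-(c * m)))}).ncard : ℝ) ≤
      Real.exp (-x) * (loops n).ncard := by
  obtain ⟨κ, hκ, hmain⟩ := words_rest
  obtain ⟨c1, hc1, hlow⟩ := c_low
  obtain ⟨K, hK, hrer⟩ := rer_low
  have hκ0 : (0 : ℝ) < κ := by exact_mod_cast hκ
  obtain ⟨ρ, hρ⟩ : ∃ ρ : ℝ, ρ = Real.log (2.43 / 2.4) := ⟨_, rfl⟩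
  have hρ0 : 0 < ρ := by
    rw [hρ]
    exact Real.log_pos (by norm_num)
  obtain ⟨c, hc⟩ : ∃ c : ℝ, c = min (ρ / 2) (1 / (50 * κ)) := ⟨_, rfl⟩
  have hc0 : 0 < c := by rw [hc]; exact lt_min (by positivity) (by positivity)
  refine ⟨κ, 2000 / c1 + 1, c, 2 * (K + 1) / ρ + 5, hκ, by positivity, hc0, by positivity,
    fun n hn x hx => ?_⟩
  refine le_trans ?_ (hrer n hn x)
  refine Nat.cast_le.2 (Set.ncard_le_ncard ?_
    ((Pool.Agent.N932.FL.Poly.loops_fin (by omega)).subset Set.inter_subset_left))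
  rintro f ⟨hf, hbad⟩
  refine ⟨hf, fun hgood => hbad (fun s m hm hlm => ?_)⟩
  have hn' : (2 : ℝ) ≤ n := by exact_mod_cast hn
  have hlog : (0.69 : ℝ) ≤ Real.log n := by
    have := Real.log_two_gt_d9
    have h3 : Real.log 2 ≤ Real.log n := Real.log_le_log (by norm_num) hn'
    linarith
  have hl2 : (0.476 : ℝ) ≤ Real.log n ^ 2 := by nlinarith
  have hKρ : 0 < 2 * (K + 1) / ρ := by positivity
  have hm2 : 2 ≤ m := by
    have h1 : (2 : ℝ) ≤ m := by
      refine le_trans ?_ hlm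
      nlinarith
    exact_mod_cast h1
  have hE : K * Real.log n ^ 2 + x ≤ ρ / 2 * m := by
    have h1 : 2 * (K + 1) / ρ * (Real.log n ^ 2 + x) ≤ m := by
      refine le_trans ?_ hlm
      nlinarith
    have h2 : ρ / 2 * (2 * (K + 1) / ρ * (Real.log n ^ 2 + x)) =
        (K + 1) * (Real.log n ^ 2 + x) := by
      field_simp
    have h3 := mul_le_mul_of_nonneg_left h1 (by positivity : 0 ≤ ρ / 2)
    rw [h2] at h3
    nlinarith [mul_nonneg hK.le hx]
  have hg := hgood s m hm2 (by omega)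
  rw [card_XX hn (by omega) (by omega) f] at hg
  obtain ⟨N, hN⟩ : ∃ N : ℝ, N = ((XX n s m f).card : ℝ) := ⟨_, rfl⟩
  rw [← hN] at hg
  have hw0 : (0 : ℝ) < ((sqLat.walks m).ncard : ℝ) := lt_of_lt_of_le (by positivity) (hlow m)
  have hN0 : 0 < N := by
    have h1 := hw0.trans_le hg
    by_contra h2
    have h3 := mul_nonpos_of_nonneg_of_nonpos (Real.exp_pos (K * Real.log n ^ 2 + x)).le
      (not_lt.1 h2)
    linarith
  have hfew : 2000 * (2.4 : ℝ) ^ m ≤ 2000 / c1 * Real.exp (-(ρ / 2 * m)) * N := by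
    have h1 : c1 * 2.43 ^ m ≤ Real.exp (ρ / 2 * m) * N := by
      refine ((hlow m).trans hg).trans ?_
      exact mul_le_mul_of_nonneg_right (Real.exp_le_exp.2 hE) hN0.le
    have h2 : (2.43 : ℝ) ^ m = 2.4 ^ m * Real.exp (ρ * m) := by
      have h3 : Real.exp ρ = 2.43 / 2.4 := by
        rw [hρ, Real.exp_log (by norm_num)]
      rw [mul_comm ρ, Real.exp_nat_mul, h3, ← mul_pow]
      norm_num
    rw [h2] at h1
    have h4 : Real.exp (ρ * m) = Real.exp (ρ / 2 * m) * Real.exp (ρ / 2 * m) := by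
      rw [← Real.exp_add]
      congr 1
      ring
    rw [h4] at h1
    have h5 : c1 * (2.4 ^ m * Real.exp (ρ / 2 * m)) ≤ N := by
      have h6 := Real.exp_pos (ρ / 2 * m)
      refine le_of_mul_le_mul_left ?_ h6
      linarith
    have h7 : Real.exp (-(ρ / 2 * m)) * Real.exp (ρ / 2 * m) = 1 := by
      rw [← Real.exp_add, neg_add_cancel, Real.exp_zero]
    have h8 := mul_le_mul_of_nonneg_left h5
      (by positivity : 0 ≤ 2000 / c1 * Real.exp (-(ρ / 2 * m)))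
    have h9 : 2000 / c1 * Real.exp (-(ρ / 2 * m)) * (c1 * (2.4 ^ m * Real.exp (ρ / 2 * m))) =
        2000 * 2.4 ^ m := by
      calc _ = 2000 * 2.4 ^ m * (c1 / c1) *
            (Real.exp (-(ρ / 2 * m)) * Real.exp (ρ / 2 * m)) := by ring
        _ = _ := by rw [h7, div_self hc1.ne']; ring
    linarith
  have hNpos : 0 < (XX n s m f).card := by
    have : (0 : ℝ) < ((XX n s m f).card : ℝ) := by rw [← hN]; exact hN0
    exact_mod_cast this
  refine ⟨hm2, hNpos, fun ψ β b B hψ hβ hb hβb => ?_⟩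
  have hB0 : 0 ≤ B := (hβ 0).1.trans (hβ 0).2
  have hm' := hmain (2 * n - 1) (by omega) (VV n s m f) (XX n s m f)
    (by unfold XX; exact filter_subset _ _) (fun w hw i hi hA => XX_flip hn hw hi hA)
    ψ β b B (m / 50) hψ hβ hb (fun m' h => hβb m' (by linarith))
  have hf2 := XX_few hn hm f (s := s)
  unfold mg
  rw [← hN] at hm' ⊢
  rw [abs_div, abs_of_pos hN0, div_le_iff₀ hN0]
  refine hm'.trans ?_
  have h1 : Real.exp (-((m : ℝ) / 50 / κ)) ≤ Real.exp (-(c * m)) := by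
    refine Real.exp_le_exp.2 (neg_le_neg ?_)
    have h2 : (m : ℝ) / 50 / κ = 1 / (50 * κ) * m := by field_simp
    rw [h2]
    exact mul_le_mul_of_nonneg_right (by rw [hc]; exact min_le_right _ _) (Nat.cast_nonneg _)
  have h2 : Real.exp (-(ρ / 2 * m)) ≤ Real.exp (-(c * m)) := by
    refine Real.exp_le_exp.2 (neg_le_neg ?_)
    exact mul_le_mul_of_nonneg_right (by rw [hc]; exact min_le_left _ _) (Nat.cast_nonneg _)
  have h3 : 2 * (((XX n s m f).filter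
      (fun w => ((Pw (VV n s m f) w).card : ℝ) < (m : ℝ) / 50)).card : ℝ) +
      Real.exp (-((m : ℝ) / 50 / κ)) * N ≤ (2000 / c1 + 1) * Real.exp (-(c * m)) * N := by
    have h4 : 2000 / c1 * Real.exp (-(ρ / 2 * m)) * N ≤ 2000 / c1 * Real.exp (-(c * m)) * N := by
      refine mul_le_mul_of_nonneg_right ?_ hN0.le
      exact mul_le_mul_of_nonneg_left h2 (by positivity)
    have h5 := mul_le_mul_of_nonneg_right h1 hN0.le
    linarith
  have h4 := mul_le_mul_of_nonneg_left h3 hB0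
  linarith

end

end Pool.Agent.N932.AG
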