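import Pool.Agent.R54.AS.Grow

/-!
# Few words with a given tail have few free corners before the tail
-/

set_option autoImplicit false
set_option linter.unusedVariables false

namespace Pool.Agent.N932.AG

open Finset Pool.Agent.H976R2 Pool.Agent.H976R2.Lip Pool.Agent.H924P Pool.Agent.H739K
open Pool.Agent.R54.AS Pool.Agent.R54.AS.Grow
open scoped Classical

noncomputable section

/-- the self-avoiding words with tail `r` after `m` letters -/
def TT (m : ℕ) (r : List Dir) : Finset (List Dir) :=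
  (SW (m + r.length)).filter (fun w => w.drop m = r)

/-- the free corners with both letters among the first `m` letters -/
def fca (m : ℕ) (w : List Dir) : Finset ℕ := (fc w).filter (fun i => i + 2 ≤ m)

theorem mem_TT {m : ℕ} {r w : List Dir} :
    w ∈ TT m r ↔ (w.length = m + r.length ∧ Saw w) ∧ w.drop m = r := by
  unfold TT
  rw [mem_filter, mem_SW]

theorem sum_TT (r : List Dir) (hl : 3 ≤ r.length) (m : ℕ) :
    ∑ w ∈ TT m r, B w ≤ 2.36 ^ m * B r := by
  induction m with
  | zero =>
    rw [pow_zero, one_mul]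
    have h1 : TT 0 r ⊆ {r} := by
      intro w hw
      rw [mem_TT] at hw
      rw [mem_singleton]
      simpa using hw.2
    refine (Finset.sum_le_sum_of_subset_of_nonneg h1 (fun w _ _ => B_nonneg w)).trans ?_
    rw [sum_singleton]
  | succ m ih =>
    obtain ⟨g, hg⟩ : ∃ g : List Dir × Dir → ℝ, g = fun p => term p.1 p.2 := ⟨_, rfl⟩
    obtain ⟨φ, hφ⟩ : ∃ φ : List Dir → List Dir × Dir, φ = fun w => (w.tail, lt w 0) := ⟨_, rfl⟩
    have hcons : ∀ w ∈ TT (m + 1) r, w = lt w 0 :: w.tail := by
      intro w hw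
      rw [mem_TT] at hw
      cases w with
      | nil => simp at hw; omega
      | cons d w => rfl
    have h1 : ∑ w ∈ TT (m + 1) r, B w = ∑ w ∈ TT (m + 1) r, g (φ w) := by
      refine sum_congr rfl fun w hw => ?_
      have h2 := hcons w hw
      rw [hg, hφ]
      simp only
      unfold term
      rw [← h2, if_pos (mem_TT.1 hw).1.2]
    have hinj : Set.InjOn φ (TT (m + 1) r : Finset (List Dir)) := by
      intro w hw w' hw' h
      rw [hφ] at h
      simp only [Prod.mk.injEq] at h
      rw [hcons w hw, hcons w' hw', h.1, h.2]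
    have h2 : (TT (m + 1) r).image φ ⊆ TT m r ×ˢ (univ : Finset Dir) := by
      intro p hp
      rw [mem_image] at hp
      obtain ⟨w, hw, rfl⟩ := hp
      rw [mem_product]
      refine ⟨?_, mem_univ _⟩
      have h3 := hcons w hw
      rw [mem_TT] at hw ⊢
      rw [hφ]
      simp only
      obtain ⟨⟨h4, h5⟩, h6⟩ := hw
      rw [h3] at h4 h5 h6
      refine ⟨⟨?_, ((saw_cons _ _).1 h5).1⟩, ?_⟩
      · rw [List.length_cons] at h4
        omega
      · rw [List.drop_succ_cons] at h6
        exact h6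
    rw [h1, ← sum_image (f := g) hinj]
    have hgn : ∀ p, 0 ≤ g p := by
      intro p
      rw [hg]
      simp only
      unfold term
      split_ifs
      · exact B_nonneg _
      · exact le_rfl
    refine (Finset.sum_le_sum_of_subset_of_nonneg h2 (fun p _ _ => hgn p)).trans ?_
    rw [sum_product]
    have h3 : ∑ w ∈ TT m r, ∑ d : Dir, g (w, d) ≤ ∑ w ∈ TT m r, 2.36 * B w := by
      refine sum_le_sum fun w hw => ?_
      rw [hg]
      obtain ⟨⟨h4, h5⟩, -⟩ := mem_TT.1 hw
      exact step w h5 (by omega)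
    refine h3.trans ?_
    rw [← mul_sum, pow_succ]
    nlinarith

theorem Vs_le : ∀ a b : Bool, Vs a b ≤ 500 := by decide
theorem Vt_le : ∀ a b c : Bool, Vt a b c ≤ 500 := by decide

theorem B_le (w : List Dir) : B w ≤ 500 * (1 / 2 : ℝ) ^ (fc w).card := by
  have h2 : st w ≤ 500 := by
    unfold st
    split_ifs
    · exact Vs_le _ _
    · exact Vt_le _ _ _
  have h4 : (st w : ℝ) ≤ 500 := by exact_mod_cast h2
  unfold B
  rw [f1_card, pow_add, mul_comm 500]
  have h5 : (1 / 2 : ℝ) ^ (kk w).card ≤ 1 := pow_le_one₀ (by norm_num) (by norm_num)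
  have h6 : (0 : ℝ) < (1 / 2 : ℝ) ^ (fc w).card := by positivity
  have h7 : (1 / 2 : ℝ) ^ (fc w).card * (1 / 2 : ℝ) ^ (kk w).card ≤ (1 / 2 : ℝ) ^ (fc w).card :=
    mul_le_of_le_one_right h6.le h5
  exact mul_le_mul h7 h4 (Nat.cast_nonneg _) h6.le

theorem fc_drop (m : ℕ) : ∀ (w : List Dir) (i : ℕ), i + m ∈ fc w → i ∈ fc (w.drop m) := by
  induction m with
  | zero =>
    intro w i h
    simpa using h
  | succ m ih =>
    intro w i h
    cases w with
    | nil =>
      unfold fc at h
      simp at h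
    | cons d w =>
      rw [List.drop_succ_cons]
      refine ih w i ?_
      have h1 : i + (m + 1) = (i + m) + 1 := by ring
      rw [h1] at h
      unfold fc at h ⊢
      rw [mem_filter, mem_range] at h ⊢
      rw [lt_succ, lt_succ, fv_cons, List.length_cons, vis_cons] at h
      obtain ⟨h2, h3, h4, h5⟩ := h
      refine ⟨by omega, by omega, h4, fun h6 => h5 (Or.inr ?_)⟩
      rw [add_sub_cancel_left]
      exact h6

theorem fc_split (m : ℕ) (w : List Dir) :
    (fc w).card ≤ (fca m w).card + 1 + (fc (w.drop m)).card := by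
  have h1 : fc w ⊆ fca m w ∪ {m - 1} ∪ (fc w).filter (fun i => m ≤ i) := by
    intro i hi
    rw [mem_union, mem_union, mem_singleton, mem_filter]
    unfold fca
    rw [mem_filter]
    by_cases h : m ≤ i
    · exact Or.inr ⟨hi, h⟩
    · by_cases h2 : i + 2 ≤ m
      · exact Or.inl (Or.inl ⟨hi, h2⟩)
      · exact Or.inl (Or.inr (by omega))
  have h2 : ((fc w).filter (fun i => m ≤ i)).card ≤ (fc (w.drop m)).card := by
    refine card_le_card_of_injOn (fun i => i - m) ?_ ?_
    · intro i hi
      rw [mem_coe, mem_filter] at hi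
      refine fc_drop m w _ ?_
      simp only
      rw [Nat.sub_add_cancel hi.2]
      exact hi.1
    · intro i hi j hj h
      rw [mem_coe, mem_filter] at hi hj
      simp only at h
      omega
  have h3 := card_le_card h1
  have h4 := card_union_le (fca m w ∪ {m - 1}) ((fc w).filter (fun i => m ≤ i))
  have h5 := card_union_le (fca m w) {m - 1}
  rw [card_singleton] at h5
  omega

/-- few words with the tail `r` have few free corners before the tail -/
theorem few_TT (r : List Dir) (hl : 3 ≤ r.length) (m : ℕ) :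
    (((TT m r).filter (fun w => 50 * (fca m w).card < m)).card : ℝ) ≤ 1000 * 2.4 ^ m := by
  have hK : (2 : ℝ) ≤ (2.4 / 2.36 : ℝ) ^ 50 := by norm_num
  obtain ⟨p, hp⟩ : ∃ p : ℝ, p = (1 / 2 : ℝ) ^ (fc r).card := ⟨_, rfl⟩
  have hp0 : 0 < p := by rw [hp]; positivity
  have h1 : ∀ w ∈ (TT m r).filter (fun w => 50 * (fca m w).card < m),
      p ≤ 2 * (2.4 / 2.36 : ℝ) ^ m * B w := by
    intro w hw
    rw [mem_filter, mem_TT] at hw
    obtain ⟨⟨⟨h2, h3⟩, h4⟩, h5⟩ := hw
    have h6 := fc_split m w
    rw [h4] at h6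
    have h7 := le_B w h3 (by omega)
    have h8 : (2 : ℝ) ^ (fca m w).card ≤ (2.4 / 2.36 : ℝ) ^ m := by
      calc (2 : ℝ) ^ (fca m w).card ≤ ((2.4 / 2.36 : ℝ) ^ 50) ^ (fca m w).card :=
            pow_le_pow_left₀ (by norm_num) hK _
        _ = (2.4 / 2.36 : ℝ) ^ (50 * (fca m w).card) := by rw [pow_mul]
        _ ≤ _ := pow_le_pow_right₀ (by norm_num) (by omega)
    have h9 : (1 / 2 : ℝ) ^ ((fca m w).card + 1 + (fc r).card) ≤ (1 / 2 : ℝ) ^ (fc w).card :=
      pow_le_pow_of_le_one (by norm_num) (by norm_num) h6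
    rw [pow_add, pow_add, ← hp, pow_one] at h9
    have h10 : p = 2 * 2 ^ (fca m w).card *
        ((1 / 2 : ℝ) ^ (fca m w).card * (1 / 2) * p) := by
      have : (2 : ℝ) ^ (fca m w).card * (1 / 2 : ℝ) ^ (fca m w).card = 1 := by
        rw [← mul_pow]; norm_num
      calc p = (2 ^ (fca m w).card * (1 / 2 : ℝ) ^ (fca m w).card) * p := by rw [this, one_mul]
        _ = _ := by ring
    calc p = 2 * 2 ^ (fca m w).card * ((1 / 2 : ℝ) ^ (fca m w).card * (1 / 2) * p) := h10
      _ ≤ 2 * (2.4 / 2.36 : ℝ) ^ m * B w :=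
        mul_le_mul (mul_le_mul_of_nonneg_left h8 (by norm_num)) (h9.trans h7) (by positivity)
          (by positivity)
  have h2 : (((TT m r).filter (fun w => 50 * (fca m w).card < m)).card : ℝ) * p ≤
      2 * (2.4 / 2.36 : ℝ) ^ m * (2.36 ^ m * (500 * p)) := by
    calc (((TT m r).filter (fun w => 50 * (fca m w).card < m)).card : ℝ) * p
        = ∑ _w ∈ (TT m r).filter (fun w => 50 * (fca m w).card < m), p := by
          rw [sum_const, nsmul_eq_mul]
      _ ≤ ∑ w ∈ (TT m r).filter (fun w => 50 * (fca m w).card < m),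
            2 * (2.4 / 2.36 : ℝ) ^ m * B w := sum_le_sum h1
      _ ≤ ∑ w ∈ TT m r, 2 * (2.4 / 2.36 : ℝ) ^ m * B w :=
          Finset.sum_le_sum_of_subset_of_nonneg (Finset.filter_subset _ _) (fun w _ _ => by
            have := B_nonneg w
            positivity)
      _ = 2 * (2.4 / 2.36 : ℝ) ^ m * ∑ w ∈ TT m r, B w := by rw [mul_sum]
      _ ≤ _ := by
          refine mul_le_mul_of_nonneg_left ((sum_TT r hl m).trans ?_) (by positivity)
          refine mul_le_mul_of_nonneg_left ?_ (by positivity)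
          rw [hp]
          exact B_le r
  have h3 : 2 * (2.4 / 2.36 : ℝ) ^ m * (2.36 ^ m * (500 * p)) = 1000 * 2.4 ^ m * p := by
    rw [div_pow]
    field_simp
    ring
  rw [h3] at h2
  exact le_of_mul_le_mul_right h2 hp0

end

end Pool.Agent.N932.AG
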