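import Pool.Agent.N932.AG.Core
import Pool.Agent.N949.AL.Cons

/-!
# The law of the area given all the rest of the polygon is smooth
-/

set_option autoImplicit false

namespace Pool.Agent.N932.AG

open Pool.Agent.H924P
open Pool.Agent.N932.FL.Poly (IsPoly rer arcS loops)
open scoped Classical

noncomputable section

/-- the conditional mean of `ψ (area)` -/
def MG (n : ℕ) (s : ZMod (2 * n)) (m : ℕ) (f : ZMod (2 * n) → ℤ × ℤ) (ψ : ℕ → ℝ) : ℝ :=
  (∑ᶠ g ∈ rer n (arcS n s m) f, ψ (area (2 * n) g)) / ((rer n (arcS n s m) f).ncard : ℝ)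

theorem pow_exp (c : ℝ) (hc : 0 < c) (k m : ℕ) :
    (m : ℝ) ^ k * Real.exp (-(c * m)) ≤ k.factorial / c ^ k := by
  have h1 := Real.pow_div_factorial_le_exp (c * m) (by positivity) k
  have h2 : 0 < (k.factorial : ℝ) := by exact_mod_cast k.factorial_pos
  rw [div_le_iff₀ h2, mul_pow] at h1
  rw [Real.exp_neg, le_div_iff₀ (by positivity), ← div_eq_mul_inv, div_mul_eq_mul_div,
    div_le_iff₀ (Real.exp_pos _)]
  linarith

theorem smooth : ∃ C : ℝ, 1 ≤ C ∧ ∃ A : ℕ → ℝ, ∀ n : ℕ, 2 ≤ n → ∀ x : ℝ, 0 ≤ x →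
    ((loops n ∩ {f | ¬ ∀ (s : ZMod (2 * n)) (m : ℕ), m + 4 ≤ 2 * n →
      C * (Real.log n ^ 2 + x) ≤ m →
      (∀ t φ : ℝ, |MG n s m f (fun a => Real.cos (t * a + φ))| ≤
        C * Real.exp (-(Real.sin (t / 2) ^ 2 * m / C))) ∧
      (∀ (k : ℕ) (h : ℕ → ℝ), (∀ a, |h a| ≤ 1) →
        |MG n s m f (fun a => ∑ i ∈ Finset.range (k + 1),
          (-1 : ℝ) ^ i * (k.choose i : ℝ) * h (a + i))| ≤ A k / Real.sqrt m ^ k) ∧
      (∀ k b : ℕ, |MG n s m f (fun a => ∑ i ∈ Finset.range (k + 1),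
          (-1 : ℝ) ^ i * (k.choose i : ℝ) * (if a + i = b then (1 : ℝ) else 0))| ≤
        A (k + 1) / Real.sqrt m ^ (k + 1)) ∧
      ∀ q : ℕ, 1 ≤ q → ∀ r : ℕ,
        |MG n s m f (fun a => if a ≡ r [MOD q] then (1 : ℝ) else 0) - 1 / q| ≤
        C * Real.exp (-(m / (C * q ^ 2)))}).ncard : ℝ) ≤ Real.exp (-x) * (loops n).ncard := by
  obtain ⟨κ, C₀, c, K, hκ, hC₀, hc, hK, hcore⟩ := core
  choose C₂ hC₂ hdif using Pool.Agent.N949.AL.dif1
  have hκ0 : (0 : ℝ) < κ := by exact_mod_cast hκ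
  obtain ⟨C, hC⟩ : ∃ C : ℝ, C = 1 + 180 * κ + C₀ + 1 / c + K := ⟨_, rfl⟩
  have d1 : 0 < 1 / c := by positivity
  have hC1 : 1 ≤ C := by rw [hC]; nlinarith
  have hCκ : 180 * κ ≤ C := by rw [hC]; linarith
  have hCC : 1 + C₀ ≤ C := by rw [hC]; nlinarith
  have hCc : 1 / c ≤ C := by rw [hC]; nlinarith
  have hCK : K ≤ C := by rw [hC]; nlinarith
  have hCpos : 0 < C := by linarith
  have hexp : ∀ m : ℕ, Real.exp (-(c * m)) ≤ Real.exp (-((m : ℝ) / C)) := by
    intro N
    refine Real.exp_le_exp.2 (neg_le_neg ?_)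
    rw [div_le_iff₀ hCpos]
    rw [div_le_iff₀ hc] at hCc
    have h1 : (N : ℝ) * 1 ≤ N * (C * c) := mul_le_mul_of_nonneg_left hCc (Nat.cast_nonneg _)
    linarith
  refine ⟨C, hC1, fun k => C₂ k * (Real.sqrt (50 * κ) ^ k + C₀ * (k.factorial / c ^ k)), ?_⟩
  intro n hn x hx
  have h4 := hcore n hn x hx
  have hLf : (loops n).Finite :=
    Pool.Agent.N932.FL.Poly.loops_fin (by omega)
  refine le_trans ?_ h4
  refine Nat.cast_le.2 (Set.ncard_le_ncard ?_ (hLf.subset Set.inter_subset_left))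
  rintro f ⟨hf, hbad⟩
  refine ⟨hf, fun hgood => hbad (fun s m hm hlm => ?_)⟩
  have hlx : 0 ≤ Real.log n ^ 2 + x := by positivity
  obtain ⟨hm2, hXpos, hc'⟩ := hgood s m hm ((mul_le_mul_of_nonneg_right hCK hlx).trans hlm)
  have hMG : ∀ ψ : ℕ → ℝ, MG n s m f ψ = mg n s m f ψ := by
    intro ψ
    unfold MG mg
    rw [sum_XX hn (by omega) (by omega) f ψ, card_XX hn (by omega) (by omega) f]
  have hX0 : (0 : ℝ) < ((XX n s m f).card : ℝ) := by exact_mod_cast hXpos
  have hm0 : (0 : ℝ) < m := by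
    have : (2 : ℝ) ≤ m := by exact_mod_cast hm2
    linarith
  have hcos : ∀ t φ : ℝ, |MG n s m f (fun a => Real.cos (t * (a : ℝ) + φ))| ≤
      C * Real.exp (-(Real.sin (t / 2) ^ 2 * m / C)) := by
    intro t φ
    rw [hMG]
    have h1 := hc' (fun a => Real.cos (t * (a : ℝ) + φ))
      (fun m => Real.exp (-(5 / 18 * Real.sin (t / 2) ^ 2 * m)))
      (Real.exp (-(Real.sin (t / 2) ^ 2 * m / C))) 1
      (fun m u => Pool.Agent.N949.AL.osc1 t φ m u) (fun m => ⟨(Real.exp_pos _).le, by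
        rw [Real.exp_le_one_iff]
        have : 0 ≤ 5 / 18 * Real.sin (t / 2) ^ 2 * m := by positivity
        linarith⟩) (Real.exp_pos _).le (fun m' hm' => by
        refine Real.exp_le_exp.2 (neg_le_neg ?_)
        have h2 : (m : ℝ) / C ≤ 5 / 18 * m' := by
          rw [div_le_iff₀ hCpos]
          have h3 : 180 * κ * (m' : ℝ) ≤ C * m' :=
            mul_le_mul_of_nonneg_right hCκ (Nat.cast_nonneg _)
          linarith
        have h3 := mul_le_mul_of_nonneg_left h2 (sq_nonneg (Real.sin (t / 2)))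
        have e1 : Real.sin (t / 2) ^ 2 * m / C = Real.sin (t / 2) ^ 2 * (m / C) := by ring
        have e2 : 5 / 18 * Real.sin (t / 2) ^ 2 * m' = Real.sin (t / 2) ^ 2 * (5 / 18 * m') := by
          ring
        rw [e1, e2]
        exact h3)
    refine h1.trans ?_
    have h5 : Real.exp (-(c * m)) ≤ Real.exp (-(Real.sin (t / 2) ^ 2 * m / C)) := by
      refine (hexp m).trans (Real.exp_le_exp.2 (neg_le_neg ?_))
      refine div_le_div_of_nonneg_right ?_ hCpos.le
      exact mul_le_of_le_one_left hm0.le (Real.sin_sq_le_one _)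
    have h6 := mul_le_mul_of_nonneg_left h5 hC₀.le
    have h7 := mul_le_mul_of_nonneg_right hCC (Real.exp_pos (-(Real.sin (t / 2) ^ 2 * m / C))).le
    linarith
  have hdf : ∀ (k : ℕ) (h : ℕ → ℝ), (∀ a, |h a| ≤ 1) →
      |MG n s m f (fun a => ∑ i ∈ Finset.range (k + 1),
        (-1 : ℝ) ^ i * (k.choose i : ℝ) * h (a + i))| ≤
      C₂ k * (Real.sqrt (50 * κ) ^ k + C₀ * (k.factorial / c ^ k)) / Real.sqrt m ^ k := by
    intro k g hg
    rw [hMG]
    have h1 := hc' (fun a => ∑ i ∈ Finset.range (k + 1),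
        (-1 : ℝ) ^ i * (k.choose i : ℝ) * g (a + i))
      (fun m => C₂ k / Real.sqrt (m + 1) ^ k)
      (C₂ k * Real.sqrt (50 * κ) ^ k / Real.sqrt m ^ k) (C₂ k)
      (fun m u => hdif k m u g hg) (fun m => ⟨by
        have := hC₂ k
        positivity, by
        have h2 : (1 : ℝ) ≤ Real.sqrt (m + 1) := by
          rw [Real.one_le_sqrt]
          have : (0 : ℝ) ≤ m := Nat.cast_nonneg _
          linarith
        exact div_le_self (hC₂ k).le (one_le_pow₀ h2)⟩) (by
        have := hC₂ k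
        positivity) (by
        intro m' hm'
        have hm0' : (0 : ℝ) ≤ m' := Nat.cast_nonneg _
        have h2 : Real.sqrt m ≤ Real.sqrt (50 * κ) * Real.sqrt (m' + 1) := by
          rw [← Real.sqrt_mul (by positivity)]
          refine Real.sqrt_le_sqrt ?_
          have : 0 ≤ 50 * (κ : ℝ) := by positivity
          linarith
        have h3 : Real.sqrt m ^ k ≤ Real.sqrt (50 * κ) ^ k * Real.sqrt (m' + 1) ^ k := by
          rw [← mul_pow]
          exact pow_le_pow_left₀ (Real.sqrt_nonneg _) h2 k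
        have h4 : 0 < Real.sqrt (m : ℝ) := Real.sqrt_pos.2 hm0
        have h5 : 0 < Real.sqrt ((m' : ℝ) + 1) := Real.sqrt_pos.2 (by linarith)
        rw [div_le_div_iff₀ (by positivity) (by positivity)]
        have := mul_le_mul_of_nonneg_left h3 (hC₂ k).le
        linarith)
    refine h1.trans ?_
    have h4 : 0 < Real.sqrt (m : ℝ) := Real.sqrt_pos.2 hm0
    have h5 : Real.sqrt m ^ k * Real.exp (-(c * m)) ≤ k.factorial / c ^ k := by
      refine le_trans (mul_le_mul_of_nonneg_right ?_ (Real.exp_pos _).le) (pow_exp c hc k m)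
      refine pow_le_pow_left₀ h4.le ?_ k
      rw [Real.sqrt_le_left hm0.le]
      have : (2 : ℝ) ≤ m := by exact_mod_cast hm2
      nlinarith
    have h6 : Real.exp (-(c * m)) ≤ k.factorial / c ^ k / Real.sqrt m ^ k := by
      rw [le_div_iff₀ (by positivity)]
      linarith
    have h7 := mul_le_mul_of_nonneg_left h6 (mul_nonneg (hC₂ k).le hC₀.le)
    have e1 : C₂ k * (Real.sqrt (50 * κ) ^ k + C₀ * (k.factorial / c ^ k)) / Real.sqrt m ^ k =
        C₂ k * Real.sqrt (50 * κ) ^ k / Real.sqrt m ^ k +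
          C₂ k * C₀ * (k.factorial / c ^ k / Real.sqrt m ^ k) := by ring
    rw [e1]
    linarith
  refine ⟨hcos, hdf, fun k b => ?_, ?_⟩
  · have h3 := hdf (k + 1) (fun m => if m ≤ b then (1 : ℝ) else 0) (fun m => by
      split_ifs <;> norm_num)
    simp only [Pool.Agent.N949.AL.dif_ind1] at h3
    exact h3
  · intro q hq r
    have hq0 : (0 : ℝ) < q := by exact_mod_cast hq
    have hlin : ∀ (S : Finset ℕ) (G : ℕ → ℕ → ℝ),
        MG n s m f (fun a => 1 / q * (1 + ∑ j ∈ S, G j a)) - 1 / q =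
        1 / q * ∑ j ∈ S, MG n s m f (G j) := by
      intro S G
      simp only [hMG]
      unfold mg
      rw [← Finset.mul_sum, Finset.sum_add_distrib, Finset.sum_const, nsmul_one,
        Finset.sum_comm, ← Finset.sum_div]
      field_simp
      ring
    have e1 : (fun a : ℕ => if a ≡ r [MOD q] then (1 : ℝ) else 0) =
        fun a : ℕ => 1 / q * (1 + ∑ j ∈ Finset.Ico 1 q,
          Real.cos (2 * Real.pi * j / q * (a : ℝ) + -(2 * Real.pi * j / q * r))) := by
      funext a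
      have h1 := Pool.Agent.N949.AL.four' q hq a r
      rw [mul_add, mul_one, ← h1]
      ring
    rw [e1, hlin, abs_mul, abs_of_pos (by positivity : (0 : ℝ) < 1 / q)]
    have h1 : ∀ j ∈ Finset.Ico 1 q, |MG n s m f (fun a =>
          Real.cos (2 * Real.pi * j / q * (a : ℝ) + -(2 * Real.pi * j / q * r)))| ≤
        C * Real.exp (-(m / (C * q ^ 2))) := by
      intro j hj
      rw [Finset.mem_Ico] at hj
      refine (hcos _ _).trans (mul_le_mul_of_nonneg_left ?_ hCpos.le)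
      refine Real.exp_le_exp.2 (neg_le_neg ?_)
      have h2 := Pool.Agent.N949.AL.sin_low q j hj.1 hj.2
      have e2 : (m : ℝ) / (C * q ^ 2) = 1 / (q : ℝ) ^ 2 * m / C := by
        field_simp
      rw [e2]
      exact div_le_div_of_nonneg_right (mul_le_mul_of_nonneg_right h2 (Nat.cast_nonneg _))
        hCpos.le
    have h2 : |∑ j ∈ Finset.Ico 1 q, MG n s m f (fun a =>
          Real.cos (2 * Real.pi * j / q * (a : ℝ) + -(2 * Real.pi * j / q * r)))| ≤
        q * (C * Real.exp (-(m / (C * q ^ 2)))) := by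
      refine (Finset.abs_sum_le_sum_abs _ _).trans ((Finset.sum_le_card_nsmul _ _ _ h1).trans ?_)
      rw [nsmul_eq_mul, Nat.card_Ico]
      refine mul_le_mul_of_nonneg_right ?_ ?_
      · exact_mod_cast Nat.sub_le q 1
      · have := (Real.exp_pos (-((m : ℝ) / (C * q ^ 2)))).le
        positivity
    calc 1 / (q : ℝ) * _ ≤ 1 / (q : ℝ) * _ := mul_le_mul_of_nonneg_left h2 (by positivity)
      _ = _ := by field_simp

end

end Pool.Agent.N932.AG
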