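import Pool.Agent.N932.AG.Arc

/-!
# The areas of two polygons which differ in one arc
-/

set_option autoImplicit false

namespace Pool.Agent.N932.AG

open Finset Pool.Agent.H924P
open scoped Classical

noncomputable section

/-- the parity of the number of crossings of a column -/
theorem parity (p : ℕ → ℤ) (a : ℤ) : ∀ j : ℕ, (∀ k < j, |p (k + 1) - p k| ≤ 1) →
    ((range j).filter (fun k => (p k = a ∧ p (k + 1) = a + 1) ∨
      (p k = a + 1 ∧ p (k + 1) = a))).card % 2 =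
      ((if p 0 ≤ a then 1 else 0) + (if p j ≤ a then 1 else 0)) % 2 := by
  intro j
  induction j with
  | zero =>
    intro _
    rw [range_zero, filter_empty, card_empty]
    split_ifs <;> rfl
  | succ j ih =>
    intro h
    have h1 := ih (fun k hk => h k (by omega))
    have h2 := h j (by omega)
    rw [abs_le] at h2
    rw [range_add_one, filter_insert]
    split_ifs at h1 ⊢ <;>
      first
      | (rw [card_insert_of_notMem (by rw [mem_filter, mem_range]; omega)]; omega)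
      | omega

theorem card_above (M : ℕ) [NeZero M] (P : ZMod M → Prop) :
    Nat.card {k // P k} = ((range M).filter (fun k : ℕ => P (k : ZMod M))).card := by
  rw [Nat.card_eq_fintype_card, Fintype.card_subtype]
  refine (Finset.card_bij (fun (k : ℕ) _ => ((k : ℕ) : ZMod M)) ?_ ?_ ?_).symm
  · intro k hk
    rw [mem_filter] at hk ⊢
    exact ⟨mem_univ _, hk.2⟩
  · intro k hk k' hk' h
    rw [mem_filter, mem_range] at hk hk'
    have h1 := congrArg ZMod.val h
    rw [ZMod.val_natCast_of_lt hk.1, ZMod.val_natCast_of_lt hk'.1] at h1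
    exact h1
  · intro k hk
    refine ⟨k.val, mem_filter.2 ⟨mem_range.2 (ZMod.val_lt k), ?_⟩, ZMod.natCast_zmod_val k⟩
    rw [ZMod.natCast_zmod_val]
    exact (mem_filter.1 hk).2

theorem split_card (M m : ℕ) (h : m ≤ M) (P : ℕ → Prop) :
    ((range M).filter P).card = ((range m).filter P).card + ((Ico m M).filter P).card := by
  rw [card_filter, card_filter, card_filter]
  exact (Finset.sum_range_add_sum_Ico _ h).symm

/-- unit steps -/
def Stp (M : ℕ) (f : ZMod M → ℤ × ℤ) : Prop :=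
  ∀ i : ZMod M, |(f (i + 1)).1 - (f i).1| + |(f (i + 1)).2 - (f i).2| = 1

/-- the crossings above a cell outside the box -/
theorem few_above {M m : ℕ} {F : ZMod M → ℤ × ℤ} (hF : Stp M F) {D : ℤ}
    (hD : ∀ k : ℕ, k ≤ m → |(F (k : ZMod M)).1| ≤ D ∧ |(F (k : ZMod M)).2| ≤ D)
    {c : ℤ × ℤ} (hc : ¬ (c.1 ∈ Set.Ico (-D) D ∧ c.2 ∈ Set.Ico (-D) D)) :
    ((range m).filter (fun k : ℕ => Above M F c.1 c.2 (k : ZMod M))).card % 2 =
      (if c.2 < -D then ((if (F ((0 : ℕ) : ZMod M)).1 ≤ c.1 then 1 else 0) +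
        (if (F (m : ZMod M)).1 ≤ c.1 then 1 else 0)) % 2 else 0) := by
  by_cases hb : c.2 < -D
  · rw [if_pos hb]
    have h1 := parity (fun k : ℕ => (F (k : ZMod M)).1) c.1 m (fun k hk => by
      have h2 := hF (k : ZMod M)
      have h3 := abs_nonneg ((F ((k : ZMod M) + 1)).2 - (F (k : ZMod M)).2)
      have h4 : (((k + 1 : ℕ)) : ZMod M) = (k : ZMod M) + 1 := by push_cast; ring
      show |(F ((k + 1 : ℕ) : ZMod M)).1 - (F (k : ZMod M)).1| ≤ 1
      rw [h4]
      omega)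
    rw [← h1]
    congr 2
    refine filter_congr fun k hk => ?_
    rw [mem_range] at hk
    have h4 : (((k + 1 : ℕ)) : ZMod M) = (k : ZMod M) + 1 := by push_cast; ring
    have h5 := (hD k hk.le).2
    rw [abs_le] at h5
    unfold Above
    rw [h4]
    exact ⟨fun h => h.1, fun h => ⟨h, by omega⟩⟩
  · rw [if_neg hb]
    have h1 : (range m).filter (fun k : ℕ => Above M F c.1 c.2 (k : ZMod M)) = ∅ := by
      rw [filter_eq_empty_iff]
      intro k hk h
      rw [mem_range] at hk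
      have h4 : (((k + 1 : ℕ)) : ZMod M) = (k : ZMod M) + 1 := by push_cast; ring
      obtain ⟨h5, h6⟩ := hD k hk.le
      obtain ⟨h7, h8⟩ := hD (k + 1) (by omega)
      rw [h4] at h7 h8
      rw [abs_le] at h5 h6 h7 h8
      obtain ⟨h9, h10⟩ := h
      apply hc
      rw [Set.mem_Ico, Set.mem_Ico]
      omega
    rw [h1, card_empty]

theorem encl_iff {M m : ℕ} [NeZero M] (hm : m < M) {F G : ZMod M → ℤ × ℤ} (hF : Stp M F)
    (hG : Stp M G) (hFG : ∀ k : ℕ, k < M → (k = 0 ∨ m ≤ k) → F (k : ZMod M) = G (k : ZMod M))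
    {D : ℤ}
    (hD : ∀ k : ℕ, k ≤ m → |(F (k : ZMod M)).1| ≤ D ∧ |(F (k : ZMod M)).2| ≤ D)
    (hD' : ∀ k : ℕ, k ≤ m → |(G (k : ZMod M)).1| ≤ D ∧ |(G (k : ZMod M)).2| ≤ D)
    {c : ℤ × ℤ} (hc : ¬ (c.1 ∈ Set.Ico (-D) D ∧ c.2 ∈ Set.Ico (-D) D)) :
    Encl M F c ↔ Encl M G c := by
  have h1 := few_above hF hD hc
  have h2 := few_above hG hD' hc
  rw [hFG 0 (by omega) (Or.inl rfl), hFG m hm (Or.inr le_rfl), ← h2] at h1
  unfold Encl
  rw [card_above, card_above, split_card M m hm.le, split_card M m hm.le]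
  have h3 : (Ico m M).filter (fun k : ℕ => Above M F c.1 c.2 (k : ZMod M)) =
      (Ico m M).filter (fun k : ℕ => Above M G c.1 c.2 (k : ZMod M)) := by
    refine filter_congr fun k hk => ?_
    rw [mem_Ico] at hk
    have h4 := hFG k hk.2 (Or.inr hk.1)
    have h5 : F ((k : ZMod M) + 1) = G ((k : ZMod M) + 1) := by
      have h6 : (((k + 1 : ℕ)) : ZMod M) = (k : ZMod M) + 1 := by push_cast; ring
      by_cases h7 : k + 1 < M
      · rw [← h6]
        exact hFG (k + 1) h7 (Or.inr (by omega))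
      · have h8 : k + 1 = M := by omega
        rw [← h6, h8, ZMod.natCast_self]
        have := hFG 0 (by omega) (Or.inl rfl)
        simpa using this
    unfold Above
    rw [h4, h5]
  rw [h3, Nat.odd_iff, Nat.odd_iff]
  omega

theorem encl_fin {M : ℕ} [NeZero M] {G : ZMod M → ℤ × ℤ} (hG : Stp M G) :
    {c : ℤ × ℤ | Encl M G c}.Finite := by
  obtain ⟨L, hL⟩ : ∃ L : ℤ, L = ∑ i : ZMod M, (|(G i).1| + |(G i).2|) := ⟨_, rfl⟩
  have h1 : ∀ i, |(G i).1| + |(G i).2| ≤ L := by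
    intro i
    rw [hL]
    exact Finset.single_le_sum (f := fun i => |(G i).1| + |(G i).2|)
      (fun i _ => add_nonneg (abs_nonneg _) (abs_nonneg _)) (mem_univ i)
  refine Set.Finite.subset (Set.Finite.prod (Set.finite_Ico (-L) L) (Set.finite_Ico (-L) L))
    (fun c hc => ?_)
  exact encl_box hG (fun i => by have := h1 i; have := abs_nonneg (G i).2; omega)
    (fun i => by have := h1 i; have := abs_nonneg (G i).1; omega) hc

theorem area_diff {M m : ℕ} [NeZero M] (hm : m < M) {F G : ZMod M → ℤ × ℤ} (hF : Stp M F)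
    (hG : Stp M G) (hFG : ∀ k : ℕ, k < M → (k = 0 ∨ m ≤ k) → F (k : ZMod M) = G (k : ZMod M))
    {D : ℕ}
    (hD : ∀ k : ℕ, k ≤ m → |(F (k : ZMod M)).1| ≤ D ∧ |(F (k : ZMod M)).2| ≤ D)
    (hD' : ∀ k : ℕ, k ≤ m → |(G (k : ZMod M)).1| ≤ D ∧ |(G (k : ZMod M)).2| ≤ D) :
    area M F ≤ area M G + (2 * D) ^ 2 := by
  have e : ∀ H : ZMod M → ℤ × ℤ, area M H = {c : ℤ × ℤ | Encl M H c}.ncard := by
    intro H
    unfold area
    rfl
  obtain ⟨S, hS⟩ : ∃ S : Finset (ℤ × ℤ), S = Finset.Ico (-(D : ℤ)) D ×ˢ Finset.Ico (-(D : ℤ)) D :=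
    ⟨_, rfl⟩
  have h1 : {c : ℤ × ℤ | Encl M F c} ⊆ {c : ℤ × ℤ | Encl M G c} ∪ (S : Set (ℤ × ℤ)) := by
    intro c hc
    by_cases h : c.1 ∈ Set.Ico (-(D : ℤ)) D ∧ c.2 ∈ Set.Ico (-(D : ℤ)) D
    · right
      rw [hS, mem_coe, mem_product, mem_Ico, mem_Ico]
      exact h
    · left
      exact (encl_iff hm hF hG hFG hD hD' h).1 hc
  have h2 := Set.ncard_le_ncard h1 ((encl_fin hG).union (Finset.finite_toSet S))
  have h3 := Set.ncard_union_le {c : ℤ × ℤ | Encl M G c} (S : Set (ℤ × ℤ))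
  have h4 : ((S : Set (ℤ × ℤ))).ncard = (2 * D) ^ 2 := by
    rw [Set.ncard_coe_finset, hS, card_product, Int.card_Ico]
    have : ((D : ℤ) - -(D : ℤ)).toNat = 2 * D := by omega
    rw [this, sq]
  rw [e, e]
  omega

end

end Pool.Agent.N932.AG
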