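import Pool.Agent.N932.AG.Up
import Pool.Agent.Results.MP_b1de6e_pr.DiametersGivenRest

/-!
# The area given all the rest of the polygon is determined up to the square of the scale
-/

set_option autoImplicit false

namespace Pool.Agent.N932.AG

open Pool.Agent.H924P
open Pool.Agent.N932.FL.Poly (IsPoly rer arcS arc loops e)
open Pool.Agent.N932.FL (sqLat)
open Pool.Agent.Results.MP_b1de6e_pr.DiametersGivenRest (diam len)
open scoped Classical

noncomputable section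

theorem coord_len (x : ℤ × ℤ) : |(x.1 : ℝ)| ≤ len x ∧ |(x.2 : ℝ)| ≤ len x := by
  unfold len
  constructor
  · rw [← Real.sqrt_sq_eq_abs]
    exact Real.sqrt_le_sqrt (by nlinarith [sq_nonneg (x.2 : ℝ)])
  · rw [← Real.sqrt_sq_eq_abs]
    exact Real.sqrt_le_sqrt (by nlinarith [sq_nonneg (x.1 : ℝ)])

theorem coord_diam {m : ℕ} (v : Fin (m + 1) → ℤ × ℤ) (h0 : v 0 = 0) (k : Fin (m + 1)) :
    |(v k).1| ≤ (⌊diam m v⌋₊ : ℤ) ∧ |(v k).2| ≤ (⌊diam m v⌋₊ : ℤ) := by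
  have h1 : len (v k) ≤ diam m v := by
    have h2 := le_ciSup (f := fun p : Fin (m + 1) × Fin (m + 1) => len (v p.1 - v p.2))
      (Set.finite_range _).bddAbove (k, 0)
    simp only [h0, sub_zero] at h2
    exact h2
  obtain ⟨h3, h4⟩ := coord_len (v k)
  constructor
  · rw [Int.abs_eq_natAbs]
    refine Int.ofNat_le.2 (Nat.le_floor ?_)
    rw [Nat.cast_natAbs, Int.cast_abs]
    exact h3.trans h1
  · rw [Int.abs_eq_natAbs]
    refine Int.ofNat_le.2 (Nat.le_floor ?_)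
    rw [Nat.cast_natAbs, Int.cast_abs]
    exact h4.trans h1

theorem notin_arc {n : ℕ} {s : ZMod (2 * n)} {m k : ℕ} (hm : m < 2 * n) (hk : k < 2 * n)
    (h : k = 0 ∨ m ≤ k) : s + (k : ZMod (2 * n)) ∉ arcS n s m := by
  rintro ⟨j, hj1, hj2, hj3⟩
  have h5 := add_left_cancel hj3
  have h6 := Pool.Agent.N932.FL.Poly.cast_inj (n := n) hk (by omega) h5
  omega

/-- the areas of two fillings -/
theorem area_rer {n : ℕ} (hn : 1 ≤ n) {s : ZMod (2 * n)} {m : ℕ} (hm : m < 2 * n)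
    {f g h : ZMod (2 * n) → ℤ × ℤ} (hg : g ∈ rer n (arcS n s m) f)
    (hh : h ∈ rer n (arcS n s m) f)
    (hD : ⌊diam m (arc n s m h)⌋₊ ≤ ⌊diam m (arc n s m g)⌋₊) :
    area (2 * n) g ≤ area (2 * n) h + (2 * ⌊diam m (arc n s m g)⌋₊) ^ 2 ∧
    area (2 * n) h ≤ area (2 * n) g + (2 * ⌊diam m (arc n s m g)⌋₊) ^ 2 := by
  have : NeZero (2 * n) := ⟨by omega⟩
  obtain ⟨D, hDD⟩ : ∃ D, D = ⌊diam m (arc n s m g)⌋₊ := ⟨_, rfl⟩
  rw [← hDD] at hD ⊢
  obtain ⟨φ, hφ⟩ : ∃ φ : (ZMod (2 * n) → ℤ × ℤ) → ZMod (2 * n) → ℤ × ℤ,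
    φ = fun g i => g (i - -s) + -f s := ⟨_, rfl⟩
  have harea : ∀ g, area (2 * n) (φ g) = area (2 * n) g := by
    intro g
    rw [hφ]
    exact area_shift (2 * n) g (-s) (-f s)
  have hstp : ∀ g ∈ rer n (arcS n s m) f, Stp (2 * n) (φ g) := by
    intro g hg i
    have h1 := hg.1.2 (i + s)
    rw [hφ]
    simp only [sub_neg_eq_add]
    have h2 : i + 1 + s = i + s + 1 := by ring
    rw [h2]
    simp only [Prod.fst_add, Prod.snd_add]
    rw [add_sub_add_right_eq_sub, add_sub_add_right_eq_sub]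
    exact h1
  have hs : ∀ g ∈ rer n (arcS n s m) f, g s = f s := fun g hg =>
    hg.2 s (Pool.Agent.N932.FL.Poly.arcS_not hm)
  have heq : ∀ g ∈ rer n (arcS n s m) f, ∀ k : ℕ, k < 2 * n → (k = 0 ∨ m ≤ k) →
      φ g (k : ZMod (2 * n)) = f (s + (k : ZMod (2 * n))) - f s := by
    intro g hg k hk h
    rw [hφ]
    simp only [sub_neg_eq_add]
    rw [add_comm (k : ZMod (2 * n)) s, hg.2 _ (notin_arc hm hk h), sub_eq_add_neg]
  have hbd : ∀ g ∈ rer n (arcS n s m) f, ∀ k : ℕ, k ≤ m →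
      |(φ g (k : ZMod (2 * n))).1| ≤ (⌊diam m (arc n s m g)⌋₊ : ℤ) ∧
      |(φ g (k : ZMod (2 * n))).2| ≤ (⌊diam m (arc n s m g)⌋₊ : ℤ) := by
    intro g hg k hk
    have h1 := coord_diam (arc n s m g) (by
      show g (s + (((0 : Fin (m + 1)).1 : ℕ) : ZMod (2 * n))) - g s = 0
      simp) ⟨k, by omega⟩
    have h2 : arc n s m g ⟨k, by omega⟩ = φ g (k : ZMod (2 * n)) := by
      show g (s + (k : ZMod (2 * n))) - g s = _
      rw [hφ]
      simp only [sub_neg_eq_add]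
      rw [hs g hg, add_comm (k : ZMod (2 * n)) s, sub_eq_add_neg]
    rw [h2] at h1
    exact h1
  have hb1 : ∀ k : ℕ, k ≤ m → |(φ g (k : ZMod (2 * n))).1| ≤ (D : ℤ) ∧
      |(φ g (k : ZMod (2 * n))).2| ≤ (D : ℤ) := by
    intro k hk
    have := hbd g hg k hk
    rw [← hDD] at this
    exact this
  have hb2 : ∀ k : ℕ, k ≤ m → |(φ h (k : ZMod (2 * n))).1| ≤ (D : ℤ) ∧
      |(φ h (k : ZMod (2 * n))).2| ≤ (D : ℤ) := by
    intro k hk
    obtain ⟨h1, h2⟩ := hbd h hh k hk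
    have h3 : ((⌊diam m (arc n s m h)⌋₊ : ℕ) : ℤ) ≤ (D : ℤ) := by exact_mod_cast hD
    exact ⟨h1.trans h3, h2.trans h3⟩
  have e1 := area_diff hm (hstp g hg) (hstp h hh)
    (fun k hk hkm => by rw [heq g hg k hk hkm, heq h hh k hk hkm]) hb1 hb2
  have e2 := area_diff hm (hstp h hh) (hstp g hg)
    (fun k hk hkm => by rw [heq g hg k hk hkm, heq h hh k hk hkm]) hb2 hb1
  rw [harea, harea] at e1 e2
  exact ⟨e1, e2⟩

theorem lip {M : ℕ} {F : ZMod M → ℤ × ℤ} (hF : Stp M F) (h0 : F 0 = 0) (k : ℕ) :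
    |(F (k : ZMod M)).1| ≤ k ∧ |(F (k : ZMod M)).2| ≤ k := by
  induction k with
  | zero => simp [h0]
  | succ k ih =>
    have h1 := hF (k : ZMod M)
    have h2 : (((k + 1 : ℕ)) : ZMod M) = (k : ZMod M) + 1 := by push_cast; ring
    rw [h2]
    have h3 := abs_nonneg ((F ((k : ZMod M) + 1)).2 - (F (k : ZMod M)).2)
    have h4 := abs_nonneg ((F ((k : ZMod M) + 1)).1 - (F (k : ZMod M)).1)
    obtain ⟨h5, h6⟩ := ih
    have h7 : |(F ((k : ZMod M) + 1)).1 - (F (k : ZMod M)).1| ≤ 1 := by omega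
    have h8 : |(F ((k : ZMod M) + 1)).2 - (F (k : ZMod M)).2| ≤ 1 := by omega
    rw [abs_le] at h5 h6 h7 h8
    rw [abs_le, abs_le]
    push_cast
    omega

/-- the area of a loop -/
theorem area_loop {n : ℕ} (hn : 1 ≤ n) {f : ZMod (2 * n) → ℤ × ℤ} (hf : f ∈ loops n) :
    area (2 * n) f ≤ (2 * (2 * n)) ^ 2 ∧
    ∀ D : ℕ, diam (2 * n - 1) (e n f) ≤ D → area (2 * n) f ≤ (2 * D) ^ 2 := by
  have : NeZero (2 * n) := ⟨by omega⟩
  constructor
  · refine area_le hf.2.2 (fun i => ?_) (fun i => ?_)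
    · have h1 := (lip (M := 2 * n) hf.2.2 hf.1 i.val).1
      rw [ZMod.natCast_zmod_val] at h1
      have h2 := i.val_lt
      omega
    · have h1 := (lip (M := 2 * n) hf.2.2 hf.1 i.val).2
      rw [ZMod.natCast_zmod_val] at h1
      have h2 := i.val_lt
      omega
  · intro D hD
    have h3 : ∀ i : ZMod (2 * n), |(f i).1| ≤ (D : ℤ) ∧ |(f i).2| ≤ (D : ℤ) := by
      intro i
      have h2 := i.val_lt
      have h1 := coord_diam (e n f) (by
        show f (((0 : Fin (2 * n - 1 + 1)).1 : ℕ) : ZMod (2 * n)) = 0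
        simp [hf.1]) ⟨i.val, by omega⟩
      have h4 : e n f ⟨i.val, by omega⟩ = f i := by
        show f ((i.val : ℕ) : ZMod (2 * n)) = f i
        rw [ZMod.natCast_zmod_val]
      rw [h4] at h1
      have h5 : ((⌊diam (2 * n - 1) (e n f)⌋₊ : ℕ) : ℤ) ≤ (D : ℤ) := by
        have : ⌊diam (2 * n - 1) (e n f)⌋₊ ≤ D := by
          have := Nat.floor_le_floor hD
          rwa [Nat.floor_natCast] at this
        exact_mod_cast this
      exact ⟨h1.1.trans h5, h1.2.trans h5⟩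
    exact area_le hf.2.2 (fun i => (h3 i).1) (fun i => (h3 i).2)

end

end Pool.Agent.N932.AG
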